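import Pool.Agent.Lib.MP_a09a4b_an.Data

/-!
# A mixed searcher strategy beats Alpern's strategy in the continuous high-low game
-/

namespace Pool.Agent.Results.MP_a09a4b_an.MixedBeatsAlpern

open scoped ENNReal
open Pool.Agent.HighLow

/-- **Mixing helps the searcher.**  There is exactly one Alpern family; its value `vA` is at least
`0.6245`, and some finitely supported mixed searcher strategy has guaranteed cost at most `0.6147`,
hence smaller than `vA`. -/
theorem result :
    ∃ (lam : ℤ → ℝ) (vA : ℝ≥0∞), IsAlpernFamily lam vA ∧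
      (∀ (lam' : ℤ → ℝ) (v' : ℝ≥0∞), IsAlpernFamily lam' v' → lam' = lam ∧ v' = vA) ∧
      ∃ σ : PMF PureStrategy, σ.support.Finite ∧ guaranteedCost σ < vA ∧
        guaranteedCost σ ≤ ENNReal.ofReal 0.6147 ∧ ENNReal.ofReal 0.6245 ≤ vA := by
  have h1 : guaranteedCost (sigma (by norm_num) (by norm_num) mixCheck_eq) ≤
      ENNReal.ofReal (6147 / 10000) := by
    refine (guaranteedCost_sigma_le (by norm_num) (by norm_num) mixCheck_eq).trans ?_
    apply ENNReal.ofReal_le_ofReal
    norm_num
  refine ⟨lamSol, ENNReal.ofReal (eSol 0), isAlpernFamily_sol,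
    fun lam' v' hA => isAlpernFamily_unique hA,
    sigma (by norm_num) (by norm_num) mixCheck_eq, sigma_support _ _ _, ?_, ?_, ?_⟩
  · refine h1.trans_lt ?_
    rw [ENNReal.ofReal_lt_ofReal_iff (eSol_pos 0)]
    linarith [eSol_zero_ge]
  · refine h1.trans (ENNReal.ofReal_le_ofReal ?_)
    norm_num
  · apply ENNReal.ofReal_le_ofReal
    refine le_trans ?_ eSol_zero_ge
    norm_num

end Pool.Agent.Results.MP_a09a4b_an.MixedBeatsAlpern
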